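import Pool.Agent.Helper76.TC.Defs

/-!
# Project TC (MP_ccd65d_gt): goals

RULES: prove `theorem t : S_XX` (goals listed as USES, and `StmtLAB`, `StmtTOP`, .. of `Pool.Agent.Helper50.CT.Goals`, are arguments; all the
`Stmt..` of CT are proved, see `Pool/Agent/Helper50/CT/Final.lean`; you may import these files). File `Pool/Agent/<You>/TC/XX.lean`.
Notation in the proofs: `h v = dist (π p) (π v)`, it is `1`-Lipschitz (`Cov.le` with `k = 0`), invariant (`Cov.inv`) and continuous.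
If a statement is false as it stands (corner cases), mail helper76 at once.
-/

set_option autoImplicit false

open Set Topology

namespace Pool.Agent.Helper76.TC

open Pool.Agent.Helper50.CT (rv Cov Sh)

/-! ## Part T: topology -/

/-- LP. PROOF. Joined: `turn` and `univ`. Locally path connected: the path component of `x` in `ball x r` contains `ball x (r/(|A|+1))`: a point `y` there is joined to `x` in
`closedBall x (A * dist x y) ⊆ ball x r` (if `A * dist x y < 0` that ball is empty, impossible). Use `locallyPathConnectedSpace_iff_pathComponentIn_mem_nhds`-like lemmas or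
`LocallyPathConnectedSpace.of_bases`; compare `Pool/Agent/Helper61/CT/LPC.lean`. -/
def S_LP : Prop := ∀ (A : ℝ) (X : Type) [MetricSpace X], Turn A X →
  LocallyPathConnectedSpace X ∧ ∀ x y : X, Joined x y

/-- T4. PROOF. The same as `StmtTOP` (`Pool/Agent/Helper30/CT/TOP.lean`, reuse its lemmas `cont_aux`, `const_path`): `M = L ∩ R`, `M1` the path component of `x1` in `M`, `u = 0` off `R`, `u = 1` off `L`, `Φ` a lift of
the circle valued function `u 1_{M1}`. On `L` the function `Φ - u 1_{M1}`, on `R` the function `Φ - (u - 1) 1_{M1}` is an integer and constant along paths. With `g z = Φ z - u z 1_{M1} z` and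
`i z = 1_{M1} z`: `g x1 = g x2`, `g x2 + i x2 = g x3 + i x3`, `g x3 = g x4`, `g x4 + i x4 = g x1 + i x1`. Adding: `i x2 + i x4 = i x1 + i x3 ≥ 1`. (All four points are in `M`.) -/
def S_T4 : Prop := ∀ (X : Type) [MetricSpace X] [SimplyConnectedSpace X]
  [LocallyPathConnectedSpace X] (L R : Set X), IsOpen L → IsOpen R → L ∪ R = univ →
  ∀ x1 x2 x3 x4 : X, JoinedIn L x1 x2 → JoinedIn R x2 x3 → JoinedIn L x3 x4 → JoinedIn R x4 x1 →
    JoinedIn (L ∩ R) x1 x2 ∨ JoinedIn (L ∩ R) x1 x4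

/-- CH (chains). PROOF. Let `f = h ∘ γ` for a path `γ` from `w` to `w'` (`turn`), continuous, so it takes all values between `h w` and `h w'`. Choose `J ≥ 1` with `|h w' - h w| ≤ J e` and points
`v_0 = w, v_1, .., v_J = w'` with `h (v_j) = h w + (j/J)(h w' - h w)`. `dist (π v_j) (π v_(j+1)) ≤ 2e` (`thin`). By induction there are `β_j` with `w` joined to `β_j +ᵥ v_j` in the band: `Cov.lift (β_j +ᵥ v_j) v_(j+1)` gives `β_(j+1)` with
`dist (β_j +ᵥ v_j) (β_(j+1) +ᵥ v_(j+1)) ≤ 2e`, and `turn` joins them in a ball of radius `2Ae` about `β_j +ᵥ v_j`, where `h` differs from `h (v_j)` (which is between `h w` and `h w'`) by at most `2Ae < 3Ae`. -/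
def S_CH : Prop := ∀ (n : ℕ) (A e D : ℝ) (X T : Type) [MetricSpace X] [MetricSpace T]
  [AddAction (Fin n → ℤ) X] (π : X → T) (p q : X), Setup n A e D X T π p q → ∀ w w' : X,
    ∃ β : Fin n → ℤ, JoinedIn (lv π p fun s => min (dist (π p) (π w)) (dist (π p) (π w')) - 3 * A * e < s ∧
      s < max (dist (π p) (π w)) (dist (π p) (π w')) + 3 * A * e) w (β +ᵥ w')

/-- GR. PROOF. The sets `lv π p P` are invariant (`Cov.inv`) and the action is continuous (isometries). Second part: `0`, sums (`y ~ k + y ~ k + k' + y`), negatives. -/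
def S_GR : Prop := ∀ (n : ℕ) (X T : Type) [MetricSpace X] [MetricSpace T]
  [AddAction (Fin n → ℤ) X] (π : X → T), Cov n X T π → ∀ (p : X) (P : ℝ → Prop),
    (∀ (x y : X) (k : Fin n → ℤ), JoinedIn (lv π p P) x y → JoinedIn (lv π p P) (k +ᵥ x) (k +ᵥ y)) ∧
    ∀ y : X, P (dist (π p) (π y)) →
      ∃ B : AddSubgroup (Fin n → ℤ), ∀ k, k ∈ B ↔ JoinedIn (lv π p P) y (k +ᵥ y)

/-- GE (generation). USES: LP, CH, GR, `StmtLAB`.
PROOF. `t = h y`, `L`, `R` the two sets `{h < t + 5Ae}`, `{t - 5Ae < h}`, `G` the closure in the conclusion. `StmtLAB` with `U = univ` and the labels `Lab w β`: (`h w < t + e` and `w ~ β +ᵥ y` in `L`) or (`t - e < h w` and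
`w ~ β +ᵥ y` in `R`). Every `w` has a label: CH for `w, y` (if `h w ≤ t` the band is in `L`, if `t ≤ h w` it is in `R`). Two labels of the same kind: `β +ᵥ y ~ β' +ᵥ y` in `L` (or `R`), translate by `-β` (GR). Different kinds
(`|h w - t| < e`): by CH there is `β''` with `w ~ β'' +ᵥ y` in the band `(t - e - 3Ae, t + e + 3Ae) ⊆ L ∩ R`, so `β'' - β` and `β' - β''` are in `G`. Local constancy: `w'` near `w` is joined to `w` in a small ball (`turn`), inside the open set. The label `0` of `y` and the label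
`k` of `k +ᵥ y`. -/
def S_GE : Prop := ∀ (n : ℕ) (A e D : ℝ) (X T : Type) [MetricSpace X] [MetricSpace T]
  [AddAction (Fin n → ℤ) X] (π : X → T) (p q : X), Setup n A e D X T π p q → ∀ (y : X) (k : Fin n → ℤ),
    k ∈ AddSubgroup.closure ({k | JoinedIn (lv π p fun s => s < dist (π p) (π y) + 5 * A * e) y (k +ᵥ y)} ∪
      {k | JoinedIn (lv π p fun s => dist (π p) (π y) - 5 * A * e < s) y (k +ᵥ y)})

/-- AL (alternative). USES: LP, T4, GR, GE.
PROOF. `L, R` as in GE (open, `L ∪ R = univ`), `B1, B2` the subgroups of GR for `L, R`. If `k ∈ B1`, `k' ∈ B2` then T4 for `y, k +ᵥ y, (k + k') +ᵥ y, k' +ᵥ y` (`L, R, L, R`; GR translates, the group is commutative) shows that `y` is joined in `L ∩ R` to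
`k +ᵥ y` or to `k' +ᵥ y`, so `k ∈ B2` or `k' ∈ B1`. So `B1 ≤ B2` or `B2 ≤ B1`, and the larger one is everything by GE (closure of the union). -/
def S_AL : Prop := ∀ (n : ℕ) (A e D : ℝ) (X T : Type) [MetricSpace X] [SimplyConnectedSpace X] [MetricSpace T]
  [AddAction (Fin n → ℤ) X] (π : X → T) (p q : X), Setup n A e D X T π p q → ∀ y : X,
    (∀ k : Fin n → ℤ, JoinedIn (lv π p fun s => s < dist (π p) (π y) + 5 * A * e) y (k +ᵥ y)) ∨
    (∀ k : Fin n → ℤ, JoinedIn (lv π p fun s => dist (π p) (π y) - 5 * A * e < s) y (k +ᵥ y))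

/-- TR. USES: LP, CH, GR, AL, `StmtTOP`.
PROOF. `J ≥ 1` with `D ≤ J e`; points `y_j`, `h (y_j) = jD/J`, `y_0 = p`, `y_J = q` (intermediate values along a path from `p` to `q`). For `y_J = q` the first alternative of AL holds: `{h < D + 5Ae}` is everything (`top`). Let `j` be the least index for which it holds.
`j = 0`: `y = p`, `0 ≤ h`, so `{h < 5Ae}` is contained in the band. `j ≥ 1`: for `y' = y_(j-1)` the second alternative holds; by CH `y = y_j` is joined to a translate of `y'` in the band `(h y' - 3Ae, h y + 3Ae) ⊆ R := {h y' - 5Ae < h}`, so `y ~ k +ᵥ y` in `R` for all `k` (GR).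
`StmtTOP` with `L = {h < h y + 5Ae}` and `R` (`L ∪ R = univ`) gives `y ~ k +ᵥ y` in `L ∩ R`, and `h y - e ≤ h y'`. -/
def S_TR : Prop := ∀ (n : ℕ) (A e D : ℝ) (X T : Type) [MetricSpace X] [SimplyConnectedSpace X] [MetricSpace T]
  [AddAction (Fin n → ℤ) X] (π : X → T) (p q : X), Setup n A e D X T π p q → ∃ y : X,
    ∀ k : Fin n → ℤ, JoinedIn (lv π p fun s => dist (π p) (π y) - 9 * A * e < s ∧
      s < dist (π p) (π y) + 9 * A * e) y (k +ᵥ y)

/-- CO (concentration). USES: TR, `StmtLAB`.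
PROOF. `U` = the band, `Lab w β` : `dist w (β +ᵥ y) < 12Ae`, `G` the closure. Existence: `dist (π w) (π y) ≤ |h w - h y| + e < 10Ae` (`thin`), `Cov.lift`. Two labels: `dist (β +ᵥ y) (β' +ᵥ y) < 24Ae`. Compare the end of `partA` in `Pool/Agent/Helper50/CT/Assembly.lean`. -/
def S_CO : Prop := ∀ (n : ℕ) (A e D : ℝ) (X T : Type) [MetricSpace X] [SimplyConnectedSpace X] [MetricSpace T]
  [AddAction (Fin n → ℤ) X] (π : X → T) (p q : X), Setup n A e D X T π p q → ∃ y : X,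
    ∀ k : Fin n → ℤ, k ∈ AddSubgroup.closure (Sh n y (24 * A * e))

/-- SE. USES: `StmtGH`. PROOF. `StmtGH` gives `p', q' ∈ T`; lift them (`Cov.surj`). `top`: the third inequality. `0 < δ` because `ghDist ≥ 0`. -/
def S_SE : Prop := ∀ (n : ℕ) (A l δ : ℝ) (X T : Type) [MetricSpace X] [MetricSpace T] [CompactSpace T]
  [Nonempty T] [Nonempty (Icc (0 : ℝ) l)] [AddAction (Fin n → ℤ) X] (π : X → T), Cov n X T π → 1 ≤ A → Turn A X →
  0 < l → GromovHausdorff.ghDist T (Icc (0 : ℝ) l) < δ →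
    ∃ (p q : X) (D : ℝ), Setup n A (20 * δ) D X T π p q ∧ l - 6 * δ ≤ D

/-- LV. PROOF. `v ↦ dist (π y) (π v)` is continuous along a path from `y` to `z` and takes the value `τ` at some `w`; `Cov.lift y w` gives `k` with `dist y (k +ᵥ w) = dist (π y) (π w) = τ`; `x = k +ᵥ w` (`Cov.inv`). -/
def S_LV : Prop := ∀ (n : ℕ) (A : ℝ) (X T : Type) [MetricSpace X] [MetricSpace T]
  [AddAction (Fin n → ℤ) X] (π : X → T), Cov n X T π → Turn A X → ∀ (y z : X) (τ : ℝ), 0 ≤ τ →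
    τ ≤ dist (π y) (π z) → ∃ x : X, dist y x = τ ∧ dist (π y) (π x) = τ

/-! ## Part P: packing -/

/-- PI (pigeonhole).
PROOF. The `k` for which such an `i` exists form a subgroup, so let `k ∈ Sh n y E`. Let `β` be with `dist x (β +ᵥ y) = dist (π x) (π y) ≤ D'` (`Cov.lift`). For `j ≤ M`: `dist x ((j • k) +ᵥ x) ≤ dist x (β +ᵥ y) + dist (β +ᵥ y) ((j • k) +ᵥ β +ᵥ y) + dist ((j • k) +ᵥ β +ᵥ y) ((j • k) +ᵥ x)
≤ D' + j E + D' ≤ 3 D'` (the group is commutative and acts by isometries). If all these `M + 1` points are pairwise at distance `> s` they are different and contradict the bound `M`. So `dist ((j • k) +ᵥ x) ((j' • k) +ᵥ x) ≤ s` for some `j < j'`, and `i = j' - j`: `i • k ∈ Sh n x s`. -/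
def S_PI : Prop := ∀ (n : ℕ) (X T : Type) [MetricSpace X] [MetricSpace T]
  [AddAction (Fin n → ℤ) X] (π : X → T), Cov n X T π → ∀ (x y : X) (E s D' : ℝ) (M : ℕ), 0 < s → 0 ≤ E →
  dist (π x) (π y) ≤ D' → (M : ℝ) * E ≤ D' →
  (∀ F : Finset X, (∀ z ∈ F, dist x z ≤ 3 * D') → (∀ z ∈ F, ∀ w ∈ F, z ≠ w → s < dist z w) → F.card ≤ M) →
  (∀ k : Fin n → ℤ, k ∈ AddSubgroup.closure (Sh n y E)) →
    ∀ k : Fin n → ℤ, ∃ i : ℕ, 1 ≤ i ∧ i • k ∈ AddSubgroup.closure (Sh n x s)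

/-- CT2 (lattice points). PROOF. As in `Pool/Agent/Helper62/CT/COUNT.lean` (`exists_det` there needs `2k ∈ closure`; here a multiple `i • k`, `i ≥ 1`, is in the closure, the same proof): `v_1, .., v_n` in `B = {ν ≤ s}` with maximal `|det| > 0`, so every `b ∈ B` is
`∑ x_i v_i` with `|x_i| ≤ 1` (Cramer). `F` = the vectors `∑ 2 k_i v_i`, `0 ≤ k_i < m`. If `ν (k' - k) ≤ s` for two of them then `|2 (k'_i - k_i)| ≤ 1`, so they are equal. `ν (∑ 2 k_i v_i) ≤ 2 n m s`. -/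
def S_CT2 : Prop := ∀ (n : ℕ) (ν : (Fin n → ℤ) → ℝ) (s : ℝ) (m : ℕ), ν 0 = 0 →
  (∀ k k', ν (k + k') ≤ ν k + ν k') → (∀ k, ν (-k) = ν k) → (∀ r : ℝ, {k | ν k ≤ r}.Finite) →
  0 ≤ s → (∀ k : Fin n → ℤ, ∃ i : ℕ, 1 ≤ i ∧ i • k ∈ AddSubgroup.closure {k | ν k ≤ s}) → 1 ≤ m →
  ∃ F : Finset (Fin n → ℤ), F.card = m ^ n ∧ (∀ k ∈ F, ν k ≤ 2 * n * m * s) ∧
    ∀ k ∈ F, ∀ k' ∈ F, k ≠ k' → s < ν (k' - k)

/-- KN. PROOF. `C (2K(n+1))^N = C (2(n+1))^N K^N` and `K^(n+1-N) → ∞`. (`Real.mul_rpow`, `tendsto_rpow_atTop`.) -/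
def S_KN : Prop := ∀ (n : ℕ) (C N : ℝ), N < (n : ℝ) + 1 →
  ∃ K : ℕ, 1 ≤ K ∧ C * (2 * (K : ℝ) * ((n : ℝ) + 1)) ^ N < (K : ℝ) ^ (n + 1)

/-- AE. USES: LV, PI, CT2.
PROOF. `s = D'/(2K)`. For `i < K` let `x_i` be as in LV with `τ_i = 2 s i ≤ D'`. By `PackX` every `s`-separated set in the ball of radius `3D'` about `x_i` has at most `C (3D'/s)^N = C (6K)^N ≤ M` elements, so PI gives the hypothesis of CT2 for `ν k = dist x_i (k +ᵥ x_i)` (finiteness:
`Cov.fin`), and CT2 with `m = K` a set `F_i` of `K^n` elements. The points `k +ᵥ x_i`, `i < K`, `k ∈ F_i`: `K^(n+1)` of them, pairwise at distance `> s` (same `i`: `dist (k +ᵥ x_i) (k' +ᵥ x_i) = ν (k' - k)`; different `i`: `dist ≥ |τ_i - τ_j| ≥ 2s`, as `dist (π y) (π (k +ᵥ x_i)) = τ_i`), and at distance at most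
`2 s i + 2 n K s ≤ (n+1) D' ≤ R0` from `y`. `PackX` with `R = (n+1) D'`, `r = s`: `K^(n+1) ≤ C (2K(n+1))^N`, a contradiction. -/
def S_AE : Prop := ∀ (n : ℕ) (X T : Type) [MetricSpace X] [MetricSpace T]
  [AddAction (Fin n → ℤ) X] (π : X → T) (A C N R0 D' E : ℝ) (K M : ℕ) (y z : X), Cov n X T π → Turn A X →
  PackX C N R0 X → 1 ≤ K → C * (2 * (K : ℝ) * ((n : ℝ) + 1)) ^ N < (K : ℝ) ^ (n + 1) →
  C * (6 * (K : ℝ)) ^ N ≤ M → 0 < D' → ((n : ℝ) + 3) * D' ≤ R0 → 0 ≤ E → (M : ℝ) * E ≤ D' →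
  D' ≤ dist (π y) (π z) → (∀ k : Fin n → ℤ, k ∈ AddSubgroup.closure (Sh n y E)) → False

/-- AM. USES: CO, SE, KN, AE.
PROOF. Replace `A` by `max A 1` (`Turn` is monotone in `A`). `K` from KN, `M = ⌈C (6K)^N⌉₊`, `D' = min (l/4) (R0/(n+3))`, `δ > 0` with `12 δ ≤ l` and `M * 480 A δ ≤ D'`. If `ghDist < δ`: SE and CO give `y`, with `E = 24 A (20 δ)`, and `p, q` with `dist (π p) (π q) = D ≥ l/2`, so
`dist (π y) (π p)` or `dist (π y) (π q)` is at least `l/4 ≥ D'`. AE. -/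
def S_AM : Prop := ∀ (n : ℕ) (A C N R0 l : ℝ), N < (n : ℝ) + 1 → 0 < R0 → 0 < l →
  ∃ δ : ℝ, 0 < δ ∧ Abs n A C N R0 l δ

/-! ## Part C: dimensions 0, 1 and 2 -/

/-- PE. PROOF. `γ t = rv (⌊t⌋ • k) + path (fract t)`; continuous: at the integers the values fit, `path 1 = rv k + path 0` (or: the path extended by `γ (t) = rv (j • k) + path (t - j)` on `[j, j+1]`; `ContinuousOn` pieces, locally finite closed cover `Icc j (j+1)`). -/
def S_PE : Prop := ∀ (n : ℕ) (S : Set (Fin n → ℝ)) (k : Fin n → ℤ) (x : Fin n → ℝ),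
  (∀ (k' : Fin n → ℤ) (v : Fin n → ℝ), v ∈ S → rv k' + v ∈ S) → JoinedIn S x (rv k + x) →
  ∃ γ : ℝ → (Fin n → ℝ), Continuous γ ∧ (∀ t, γ t ∈ S) ∧ ∀ t, γ (t + 1) = rv k + γ t

/-- PL. USES (import) `Pool/Agent/Helper33/Del/BddSurj.lean`: continuous maps of bounded displacement of a finite dimensional inner product space are onto.
PROOF. `F (t, t') = γ t - γ' t'`, `Λ (t, t') = t k - t' k'` (a linear isomorphism of the plane). `γ t - t k` and `γ' t' - t' k'` are continuous and `1`-periodic, so bounded; `Λ⁻¹ ∘ F` has bounded displacement, so `F` takes the value `0`. -/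
def S_PL : Prop := ∀ (k k' : Fin 2 → ℤ), k 0 * k' 1 - k 1 * k' 0 ≠ 0 → ∀ γ γ' : ℝ → (Fin 2 → ℝ),
  Continuous γ → Continuous γ' → (∀ t, γ (t + 1) = rv k + γ t) → (∀ t, γ' (t + 1) = rv k' + γ' t) →
    ∃ t t' : ℝ, γ t = γ' t'

/-- NP. PROOF. `B` has an element `k ≠ 0` (a multiple of `e_1` is in its closure). If all `k' ∈ B'` satisfied `det (k, k') = 0`, then so would their closure; but `i e_j` is in it and `det (k, i e_j) = i det (k, e_j) ≠ 0` for `j = 1` or `j = 2`. -/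
def S_NP : Prop := ∀ B B' : Set (Fin 2 → ℤ),
  (∀ k : Fin 2 → ℤ, ∃ i : ℕ, 1 ≤ i ∧ i • k ∈ AddSubgroup.closure B) →
  (∀ k : Fin 2 → ℤ, ∃ i : ℕ, 1 ≤ i ∧ i • k ∈ AddSubgroup.closure B') →
    ∃ k ∈ B, ∃ k' ∈ B', k 0 * k' 1 - k 1 * k' 0 ≠ 0

/-- CE. USES: PE, PL, NP.
PROOF. NP for `Sh 2 y s`, `Sh 2 x s`: `k, k'`. `turn` joins `y` to `k +ᵥ y` in `{v | dist (π y) (π v) ≤ A s}`; transport with `φ⁻¹` to the plane and extend periodically (PE; the set is invariant). The same for `x, k'`. By PL the two curves have a common point `v`: `dist (π y) (π x) ≤ 2 A s`. -/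
def S_CE : Prop := ∀ (X T : Type) [MetricSpace X] [MetricSpace T] [AddAction (Fin 2 → ℤ) X]
  (π : X → T) (φ : (Fin 2 → ℝ) ≃ₜ X) (A s : ℝ) (x y : X), (∀ (k : Fin 2 → ℤ) v, φ (rv k + v) = k +ᵥ φ v) →
  Cov 2 X T π → 1 ≤ A → Turn A X → 0 < s → 2 * A * s < dist (π y) (π x) →
  (∀ k : Fin 2 → ℤ, ∃ i : ℕ, 1 ≤ i ∧ i • k ∈ AddSubgroup.closure (Sh 2 y s)) →
  (∀ k : Fin 2 → ℤ, ∃ i : ℕ, 1 ≤ i ∧ i • k ∈ AddSubgroup.closure (Sh 2 x s)) → False

/-- CM. USES: CO, SE, LV, PI, CE.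
PROOF. `A ≥ 1` as in AM. `D' = min (l/4) (R0/3)`, `s = D'/(3A)`, `M = ⌈C (9A)^N⌉₊`, `E = 480 A δ` with `M E ≤ D'`, `E ≤ s`, `12 δ ≤ l`. As in AM there are `y` and `z` with `dist (π y) (π z) ≥ D'`; LV: `x` with `dist (π y) (π x) = D' > 2 A s`. PI at `x` (`3D' ≤ R0`, `C (3D'/s)^N = C (9A)^N`), and
`Sh 2 y E ⊆ Sh 2 y s`. CE. -/
def S_CM : Prop := ∀ (A C N R0 l : ℝ), 0 < R0 → 0 < l → ∃ δ : ℝ, 0 < δ ∧ Abs 2 A C N R0 l δ

/-- N1. USES: CO, SE, `StmtGH`.
PROOF. `n = 0`: `T` has one point (`π ∘ φ` is onto), so `StmtGH` gives `l - 6δ ≤ 0`; take `δ = l/12`. `n = 1`: `A ≥ 1` as in AM, `δ` with `12 δ ≤ l` and `A * (480 A δ) < l/4`. `y` from CO; there is `k ≠ 0` in `Sh 1 y E`, `E = 480 A δ`. `turn` joins `y` to `k +ᵥ y` in `closedBall y (A E)`; the path `φ⁻¹ ∘ γ` in `Fin 1 → ℝ` takes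
all values between `φ⁻¹ y` and `rv k + φ⁻¹ y`, so it meets every class modulo `ℤ`: `dist (π y) (π w) ≤ A E` for all `w`. But some `w ∈ {p, q}` has `dist (π y) (π w) ≥ l/4`. -/
def S_N1 : Prop := ∀ (n : ℕ) (A C N R0 l : ℝ), n ≤ 1 → 0 < R0 → 0 < l →
  ∃ δ : ℝ, 0 < δ ∧ Abs n A C N R0 l δ

/-- XT. USES: `StmtQ0`.
PROOF. As `Pool/Agent/Helper39/CT/TORUS.lean` (copy `Pt`, `metr`, the action, the homeomorphism `e`; `φ = e.symm`): `X = ℝⁿ` with the metric `d` is contractible and proper, `IsQuot` holds (`free` with the constant `c` of `bilip`), so `Cov` by `StmtQ0`; `Turn A X` from `turn` (map the path by the homeomorphism), `PackX` from `Pack`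
(image of the finite set). -/
def S_XT : Prop := ∀ (n : ℕ) (A C N R0 l δ : ℝ), Abs n A C N R0 l δ → ∀ d : (Fin n → ℝ) → (Fin n → ℝ) → ℝ,
  TorusMetric n A d → Pack n C N R0 d → ¬ Near n d l δ

/-! ## Part E: the example -/

/-- ME. Facts on the median and `fo`. PROOF. `fo t ≤ 1/2` (`abs_sub_round`), `fo (t + k) = fo t`, `|fo s - fo t| ≤ |s - t|` (`fo t ≤ |t - j|` for all integers `j`, `round_le`), `med` lies in `[0, 1/2]`, is `1`-Lipschitz for the maximum norm (all of `min`, `max` are). Surjective: `x = (s/2, s/2, s/2, 0, ..)`,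
`fo (s/2) = s/2` for `0 ≤ s ≤ 1`. -/
def S_ME : Prop := ∀ m : ℕ, (∀ x : Fin (m + 3) → ℝ, 0 ≤ uu m x ∧ uu m x ≤ 1) ∧
  (∀ x y : Fin (m + 3) → ℝ, |uu m x - uu m y| ≤ 2 * ‖x - y‖) ∧
  (∀ (k : Fin (m + 3) → ℤ) (x : Fin (m + 3) → ℝ), uu m (rv k + x) = uu m x) ∧
  ∀ s : ℝ, 0 ≤ s → s ≤ 1 → ∃ x : Fin (m + 3) → ℝ, uu m x = s

/-- BO. PROOF. Let `α = med p ≤ β = med q` (otherwise exchange `p, q`; `JoinedIn.symm`, `uIcc_comm`). Piecewise linear path `p → p' → r → q`, `p' i = max (p i) (min (q i) β)` and `r i` = the point of `uIcc (p' i) (q i)` closest to `β`, that is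
`max (min (p' i) (q i)) (min (max (p' i) (q i)) β)`. (1) `p' i` is between `p i` and `q i`, `p ≤ p'`; `med p' = β`: two of the `q i` are `≥ β`, so two `p' i ≥ β`; `p' i > β` only if `p i > β ≥ α`, at most one `i`. Along `p → p'` the coordinates increase, so the median is between `α` and `β`. (2) Useful fact: `med z = β` iff at most one
`z i < β` and at most one `z i > β`. Along `p' → r` and `r → q` every coordinate moves monotonically between `p' i` (or `q i`) and `r i` without crossing `β`: the set of the `i` with `z i < β` is contained in that of `p'` (or `q`), the same for `> β`; so the median is `β`. A segment in a set gives `JoinedIn` (`JoinedIn.of_segment_subset`-like, or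
an explicit path). -/
def S_BO : Prop := ∀ p q : Fin 3 → ℝ, JoinedIn {z : Fin 3 → ℝ | (∀ i, z i ∈ uIcc (p i) (q i)) ∧
  med (z 0) (z 1) (z 2) ∈ uIcc (med (p 0) (p 1) (p 2)) (med (q 0) (q 1) (q 2))} p q

/-- CL. USES: BO. PROOF. On a cell `[j/2, (j+1)/2]` the function `fo` is `t - j/2` (`j` even) or `(j+1)/2 - t` (`j` odd). Map the path of BO for `p i = fo (x i)`, `q i = fo (x' i)` back by the inverse affine maps (`z i ↦ j/2 + z i` or `(j+1)/2 - z i`; `z i ∈ uIcc (p i) (q i) ⊆ [0, 1/2]`, so the image is in the cell). -/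
def S_CL : Prop := ∀ x x' : Fin 3 → ℝ, (∀ i, Cell (x i) (x' i)) →
  JoinedIn {z : Fin 3 → ℝ | (∀ i, z i ∈ uIcc (x i) (x' i)) ∧ mm z ∈ uIcc (mm x) (mm x')} x x'

/-- CR (crossing walls with one coordinate). USES: CL.
PROOF. `β = mm z`, `α = fo (z i) = fo b`, `w = |b - z i|`, `j, k` the other indices, `a_j = fo (z j)`, `a_k = fo (z k)`. If the segment `[z i, b]` contains neither an integer nor a half integer it is in one cell and `b = z i`. Let `a'_j` be `a_j`, replaced by `max a_j β` if the segment contains an integer, and then by `min _ β` if it contains a half integer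
(point of `ℤ + 1/2`); the same for `k`. Let `z1` be `z` with `z j, z k` replaced by the points of the same cells with `fo = a'_j, a'_k`. Path: `z → z1` (CL), then the coordinate `i` runs from `z i` to `b`, then back (CL).
(1) `mm z1 = β`, and `med (v, a'_j, a'_k) = β` for all values `v = fo t`, `t` in the segment: both kinds of walls: `a'_j = a'_k = β`. Only integers (then only one, `c`, and `v = |t - c| ≤ α`): if `α > β` then `max a_j a_k = β`, so `a'_j = a'_k = β`; if `α ≤ β` then `v ≤ β`, `min a_j a_k ≤ β` with equality if `α < β`, so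
`min a'_j a'_k = β`. Only half integers: symmetric. (2) Cost: `|a'_j - a_j| ≤ w`: a change by `max` happens only if `a_j < β`, which excludes `α < β` (then `min a_j a_k = β`), so it is `≤ β ≤ α ≤ w/2` (`|z i - c|, |b - c| ≥ α` for an integer `c` between them); a change by `min` only if `a_j > β`, so `α ≤ β` and it is `≤ 1/2 - β ≤ 1/2 - α ≤ w/2`. -/
def S_CR : Prop := ∀ (z : Fin 3 → ℝ) (i : Fin 3) (b : ℝ), fo b = fo (z i) →
  JoinedIn {v : Fin 3 → ℝ | mm v = mm z ∧ v i ∈ uIcc (z i) b ∧ ∀ j, j ≠ i → |v j - z j| ≤ |b - z i|}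
    z (Function.update z i b)

/-- TU. USES: ME, CL, CR.
PROOF. `δ = ‖x - y‖`. First move the coordinates with index `≥ 3` linearly from `x` to `y` (`uu` is constant). Then the first three coordinates: `y' i` = the point of the cell of `x i` with `fo (y' i) = fo (y i)`; `|y' i - x i| = |fo (y i) - fo (x i)| ≤ |y i - x i| ≤ δ`; CL from `x` to `y'` (`mm` between `mm x` and `mm y`). Then CR for `i = 0, 1, 2`, replacing `y' i` by `y i`;
`w = |y i - y' i| ≤ 2δ`, the coordinate `i` stays between `y' i` and `y i`, so within `δ` of `x i`; the others are moved by at most `2δ` from `y' j` or `y j`, so they are within `3δ` of `x j`. -/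
def S_TU : Prop := ∀ (m : ℕ) (x y : Fin (m + 3) → ℝ),
  JoinedIn {z : Fin (m + 3) → ℝ | ‖x - z‖ ≤ 3 * ‖x - y‖ ∧ uu m z ∈ uIcc (uu m x) (uu m y)} x y

/-- TM. USES: ME, TU. PROOF. `bilip`: `c = ε`, `C = ε + 2`. `turn`: `|uu x - uu z| ≤ |uu x - uu y|` for `uu z ∈ uIcc (uu x) (uu y)`. -/
def S_TM : Prop := ∀ (m : ℕ) (ε : ℝ), 0 < ε → TorusMetric (m + 3) 3 (dd m ε)

/-- PK. PROOF. The map `z ↦ ((⌊3 ε (z i)/r⌋)_i, ⌊3 (uu z)/r⌋)` is injective on `F` (same image: `ε |z i - z' i| < r/3` for all `i`, `|uu z - uu z'| < r/3`, so `dd < r`), and each of its `m + 4` coordinates takes at most `6R/r + 2 ≤ 8R/r` values (`ε |z i - x i| ≤ R`, `|uu z - uu x| ≤ R`).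
So `card F ≤ (8R/r)^(m+4) ≤ 8^(m+4) (R/r)^N` because `R/r ≥ 1`, `N ≥ m + 4`. -/
def S_PK : Prop := ∀ (m : ℕ) (ε N R0 : ℝ), 0 < ε → (m : ℝ) + 4 ≤ N →
  Pack (m + 3) (8 ^ (m + 4)) N R0 (dd m ε)

/-- QT. PROOF. `q x y = ⨅ k, d x (rv k + y)` is a pseudometric on a copy of `ℝⁿ` (`0 ≤ d`; symmetric by `periodic`; triangle inequality: `d x (rv (k + k') + z) ≤ d x (rv k + y) + d (rv k + y) (rv k + rv k' + z)`), `T` its `SeparationQuotient`, `π` the map to it. Compact: the continuous image (`q ≤ d ≤ C ‖·‖`) of the cube `[0,1]ⁿ` (every point has a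
translate in it). Nonempty. -/
def S_QT : Prop := ∀ (n : ℕ) (A : ℝ) (d : (Fin n → ℝ) → (Fin n → ℝ) → ℝ), TorusMetric n A d →
  ∃ (T : Type) (_ : MetricSpace T) (_ : CompactSpace T) (_ : Nonempty T) (π : (Fin n → ℝ) → T),
    IsTorus n d T π

/-- NR. USES: ME, TM, QT.
PROOF. `T, π` from QT for `dd m ε`, `0 < ε < δ`. `|uu x - uu y| ≤ dist (π x) (π y) ≤ ε + |uu x - uu y|` (the infimum over `k`; `uu` is periodic; for the upper bound `k i = round (x i - y i)`). So `uu` induces a map `Ψ : T → [0, 1]` (choose preimages) with `| dist s t - dist (Ψ s) (Ψ t) | ≤ ε` which is onto; `GromovHausdorff.ghDist_le_of_approx_subsets` with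
`s = univ`, `ε₁ = ε₃ = 0`, `ε₂ = ε` gives `ghDist ≤ ε/2`. -/
def S_NR : Prop := ∀ (m : ℕ) (ε δ : ℝ), 0 < ε → ε < δ → Near (m + 3) (dd m ε) 1 δ

/-- FIN. USES: AM, CM, N1, XT, TM, PK, NR. (helper76)
PROOF. Left to right: `n ≤ 1`: N1; `n = 2`: CM; `N < n + 1`: AM; XT. Right to left: `n = m + 3`, `A = 3`, `C = 8^(m+4)`, `R0 = l = 1`, `d = dd m (δ/2)`. -/
def S_FIN : Prop := StmtFINAL

end Pool.Agent.Helper76.TC
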