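import Pool.Agent.Helper76.TC.Fin
import Pool.Agent.Helper12.TC.CE
import Pool.Agent.Helper13.TC.CO
import Pool.Agent.Helper14.TC.XT
import Pool.Agent.Helper15.TC.SE
import Pool.Agent.Helper17.TC.LV
import Pool.Agent.Helper20.TC.CH
import Pool.Agent.Helper23.TC.TU
import Pool.Agent.Helper4.TC.AE
import Pool.Agent.Helper44.TC.N1
import Pool.Agent.Helper46.TC.AL
import Pool.Agent.Helper47.TC.AM
import Pool.Agent.Helper57.TC.PK
import Pool.Agent.Helper62.TC.BO
import Pool.Agent.Helper64.TC.NP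
import Pool.Agent.Helper69.TC.T4
import Pool.Agent.Helper71.TC.GE
import Pool.Agent.Helper75.TC.TR
import Pool.Agent.Helper78.TC.PL
import Pool.Agent.Helper79.TC.LP
import Pool.Agent.Helper8.TC.GR
import Pool.Agent.Helper80.TC.TM
import Pool.Agent.Helper81.TC.CT2
import Pool.Agent.Helper82.TC.PI
import Pool.Agent.Helper83.TC.ME
import Pool.Agent.Helper85.TC.CR
import Pool.Agent.Helper87.TC.CM
import Pool.Agent.Helper91.TC.KN
import Pool.Agent.Helper94.TC.PE
import Pool.Agent.Helper96.TC.NR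
import Pool.Agent.Helper22.TC.QT
import Pool.Agent.Helper45.TC.CL
import Pool.Agent.Helper53.CT.Q0
import Pool.Agent.Helper89.CT.LAB
import Pool.Agent.Helper30.CT.TOP
import Pool.Agent.Helper15.CT.GH

/-!
# Project TC: the theorem, all packets put together
-/

set_option autoImplicit false

namespace Pool.Agent.Helper76.TC

theorem fAL : S_AL :=
  Helper46.TC.AL.t Helper79.TC.LP.t Helper69.TC.T4.t Helper8.TC.GR.t
    (Helper71.TC.GE.t Helper79.TC.LP.t Helper20.TC.CH.t Helper8.TC.GR.t Helper89.CT.goalLAB)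

theorem fTR : S_TR :=
  Helper75.TC.TR.t Helper79.TC.LP.t Helper20.TC.CH.t Helper8.TC.GR.t fAL Helper30.CT.goalTOP

theorem fCO : S_CO := Helper13.TC.CO.t fTR Helper89.CT.goalLAB

theorem fSE : S_SE := Helper15.TC.SE.t Helper15.CT.goalGH

theorem fAM : S_AM :=
  Helper47.TC.AM.t fCO fSE Helper91.TC.KN.t
    (Helper4.TC.AE.t Helper17.TC.LV.t Helper82.TC.PI.t Helper81.TC.CT2.t)

theorem fCM : S_CM :=
  Helper87.TC.CM.t fCO fSE Helper17.TC.LV.t Helper82.TC.PI.t
    (Helper12.TC.CE.t Helper94.TC.PE.t Helper78.TC.PL.t Helper64.TC.NP.t)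

theorem fN1 : S_N1 := Helper44.TC.N1.t fCO fSE Helper15.CT.goalGH

theorem fXT : S_XT := Helper14.TC.XT.t Helper53.CT.goalQ0

theorem fCL : S_CL := Helper45.TC.CL.t Helper62.TC.BO.t

theorem fTM : S_TM :=
  Helper80.TC.TM.t Helper83.TC.ME.t
    (Helper23.TC.TU.t Helper83.TC.ME.t fCL (Helper85.TC.CR.t fCL))

theorem fNR : S_NR := Helper96.TC.NR.t Helper83.TC.ME.t fTM Helper22.TC.QT.t

theorem final : StmtFINAL := fin fAM fCM fN1 fXT fTM Helper57.TC.PK.t fNR

end Pool.Agent.Helper76.TC
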