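import Pool.Agent.Helper50.CT.Goals

/-!
# Project TC (MP_ccd65d_gt): tori and intervals, the growth threshold. Definitions

THEOREM. For `n ≥ 0` and real `N` the following are equivalent: (i) there are `A, C, R0 > 0, l > 0` and `ℤⁿ`-periodic metrics on
`ℝⁿ` (bi-Lipschitz to the norm) of bounded turning `A` and of packing type `(C, N)` up to the scale `R0`, whose tori
`ℝⁿ/ℤⁿ` are arbitrarily close to `[0, l]`; (ii) `n ≥ 3` and `N ≥ n + 1`.
-/

set_option autoImplicit false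

open Set

namespace Pool.Agent.Helper76.TC

open Pool.Agent.Helper50.CT (rv Cov Sh)

/-! ## The statement -/

/-- `d` is a `ℤⁿ`-periodic metric on `ℝⁿ`, bi-Lipschitz to the norm, and any two points `x, y` are joined by a path in the
ball of radius `A d(x,y)` about `x` (`A = 1` for every geodesic metric). -/
structure TorusMetric (n : ℕ) (A : ℝ) (d : (Fin n → ℝ) → (Fin n → ℝ) → ℝ) : Prop where
  symm : ∀ x y, d x y = d y x
  triangle : ∀ x y z, d x z ≤ d x y + d y z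
  periodic : ∀ (k : Fin n → ℤ) (x y : Fin n → ℝ), d (rv k + x) (rv k + y) = d x y
  bilip : ∃ c C : ℝ, 0 < c ∧ ∀ x y, c * ‖x - y‖ ≤ d x y ∧ d x y ≤ C * ‖x - y‖
  turn : ∀ x y, JoinedIn {z | d x z ≤ A * d x y} x y

/-- every `r`-separated set in a ball of radius `R`, `0 < r ≤ R ≤ R0`, has at most `C (R/r)^N` points -/
def Pack (n : ℕ) (C N R0 : ℝ) (d : (Fin n → ℝ) → (Fin n → ℝ) → ℝ) : Prop :=
  ∀ (x : Fin n → ℝ) (r R : ℝ), 0 < r → r ≤ R → R ≤ R0 → ∀ F : Finset (Fin n → ℝ),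
    (∀ y ∈ F, d x y ≤ R) → (∀ y ∈ F, ∀ z ∈ F, y ≠ z → r < d y z) → (F.card : ℝ) ≤ C * (R / r) ^ N

/-- `T` is the torus `ℝⁿ/ℤⁿ` with the quotient metric of `d`. -/
structure IsTorus (n : ℕ) (d : (Fin n → ℝ) → (Fin n → ℝ) → ℝ) (T : Type) [MetricSpace T]
    (π : (Fin n → ℝ) → T) : Prop where
  surj : Function.Surjective π
  quot : ∀ x y, dist (π x) (π y) = ⨅ k : Fin n → ℤ, d x (rv k + y)

/-- the torus of `d` is at Gromov-Hausdorff distance `< δ` from `[0, l]` -/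
def Near (n : ℕ) (d : (Fin n → ℝ) → (Fin n → ℝ) → ℝ) (l δ : ℝ) : Prop :=
  ∃ (T : Type) (_ : MetricSpace T) (_ : CompactSpace T) (_ : Nonempty T)
    (_ : Nonempty (Icc (0 : ℝ) l)) (π : (Fin n → ℝ) → T),
    IsTorus n d T π ∧ GromovHausdorff.ghDist T (Icc (0 : ℝ) l) < δ

/-- the theorem -/
def StmtFINAL : Prop := ∀ (n : ℕ) (N : ℝ),
  (∃ A C R0 l : ℝ, 0 < R0 ∧ 0 < l ∧ ∀ δ : ℝ, 0 < δ → ∃ d : (Fin n → ℝ) → (Fin n → ℝ) → ℝ,
    TorusMetric n A d ∧ Pack n C N R0 d ∧ Near n d l δ) ↔ 3 ≤ n ∧ (n : ℝ) + 1 ≤ N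

/-! ## Abstract spaces -/

/-- bounded turning -/
def Turn (A : ℝ) (X : Type) [MetricSpace X] : Prop :=
  ∀ x y : X, JoinedIn (Metric.closedBall x (A * dist x y)) x y

/-- packing -/
def PackX (C N R0 : ℝ) (X : Type) [MetricSpace X] : Prop :=
  ∀ (x : X) (r R : ℝ), 0 < r → r ≤ R → R ≤ R0 → ∀ F : Finset X,
    (∀ y ∈ F, dist x y ≤ R) → (∀ y ∈ F, ∀ z ∈ F, y ≠ z → r < dist y z) →
      (F.card : ℝ) ≤ C * (R / r) ^ N

/-- the set of the points whose level `h v = dist (π p) (π v)` satisfies `P` -/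
def lv {X T : Type} [MetricSpace T] (π : X → T) (p : X) (P : ℝ → Prop) : Set X :=
  {v | P (dist (π p) (π v))}

/-- The quotient `T` is `e`-close to the interval `[0, D]`: `h v = dist (π p) (π v)` is the coordinate. -/
structure Setup (n : ℕ) (A e D : ℝ) (X T : Type) [MetricSpace X] [MetricSpace T]
    [AddAction (Fin n → ℤ) X] (π : X → T) (p q : X) : Prop where
  cov : Cov n X T π
  A1 : 1 ≤ A
  turn : Turn A X
  epos : 0 < e
  thin : ∀ x y : X, dist (π x) (π y) ≤ |dist (π p) (π x) - dist (π p) (π y)| + e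
  dq : dist (π p) (π q) = D
  top : ∀ x : X, dist (π p) (π x) ≤ D + e

/-- `ghDist ≥ δ` for all abstract tori with the given data -/
def Abs (n : ℕ) (A C N R0 l δ : ℝ) : Prop :=
  ∀ (X T : Type) [MetricSpace X] [ProperSpace X] [SimplyConnectedSpace X] [MetricSpace T]
    [CompactSpace T] [Nonempty T] [Nonempty (Icc (0 : ℝ) l)] [AddAction (Fin n → ℤ) X]
    (π : X → T) (φ : (Fin n → ℝ) ≃ₜ X), (∀ (k : Fin n → ℤ) x, φ (rv k + x) = k +ᵥ φ x) →
    Cov n X T π → Turn A X → PackX C N R0 X → δ ≤ GromovHausdorff.ghDist T (Icc (0 : ℝ) l)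

/-! ## The example -/

/-- distance to the nearest integer -/
noncomputable def fo (t : ℝ) : ℝ := |t - round t|

/-- the median of three numbers -/
noncomputable def med (a b c : ℝ) : ℝ := max (min a b) (min (max a b) c)

/-- the median of the distances to the integers -/
noncomputable def mm (z : Fin 3 → ℝ) : ℝ := med (fo (z 0)) (fo (z 1)) (fo (z 2))

/-- the function `u` on `ℝ^(m+3)` -/
noncomputable def uu (m : ℕ) (x : Fin (m + 3) → ℝ) : ℝ := 2 * med (fo (x 0)) (fo (x 1)) (fo (x 2))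

/-- the metric `ε ‖x - y‖ + |u x - u y|` -/
noncomputable def dd (m : ℕ) (ε : ℝ) (x y : Fin (m + 3) → ℝ) : ℝ :=
  ε * ‖x - y‖ + |uu m x - uu m y|

/-- `s` and `t` are in a common cell `[j/2, (j+1)/2]` -/
def Cell (s t : ℝ) : Prop := ∃ j : ℤ, (j : ℝ) / 2 ≤ s ∧ s ≤ ((j : ℝ) + 1) / 2 ∧ (j : ℝ) / 2 ≤ t ∧ t ≤ ((j : ℝ) + 1) / 2

end Pool.Agent.Helper76.TC
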