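import Pool.Agent.Helper76.TC.Goals

/-! Project TC: the final step. -/

set_option autoImplicit false

open Set Topology

namespace Pool.Agent.Helper76.TC

theorem fin (hAM : S_AM) (hCM : S_CM) (hN1 : S_N1) (hXT : S_XT) (hTM : S_TM) (hPK : S_PK)
    (hNR : S_NR) : StmtFINAL := by
  intro n N
  constructor
  · rintro ⟨A, C, R0, l, hR0, hl, H⟩
    have key : ∀ δ : ℝ, 0 < δ → ¬ Abs n A C N R0 l δ := by
      intro δ hδ hA
      obtain ⟨d, h1, h2, h3⟩ := H δ hδ
      exact hXT n A C N R0 l δ hA d h1 h2 h3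
    have hn : 3 ≤ n := by
      by_contra h
      have h2 : n ≤ 1 ∨ n = 2 := by omega
      rcases h2 with h2 | rfl
      · obtain ⟨δ, hδ, hA⟩ := hN1 n A C N R0 l h2 hR0 hl
        exact key δ hδ hA
      · obtain ⟨δ, hδ, hA⟩ := hCM A C N R0 l hR0 hl
        exact key δ hδ hA
    refine ⟨hn, ?_⟩
    by_contra h
    push Not at h
    obtain ⟨δ, hδ, hA⟩ := hAM n A C N R0 l h hR0 hl
    exact key δ hδ hA
  · rintro ⟨h3, hN⟩
    obtain ⟨m, rfl⟩ : ∃ m, n = m + 3 := ⟨n - 3, by omega⟩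
    refine ⟨3, 8 ^ (m + 4), 1, 1, one_pos, one_pos, fun δ hδ => ⟨dd m (δ / 2), ?_, ?_, ?_⟩⟩
    · exact hTM m (δ / 2) (by positivity)
    · refine hPK m (δ / 2) N 1 (by positivity) ?_
      push_cast at hN
      linarith
    · exact hNR m (δ / 2) δ (by positivity) (by linarith)

end Pool.Agent.Helper76.TC
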